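import Mathlib

namespace Pool.Agent.H.MP_7689c7_co

/-- `a` is a minimal generator: a nonzero element that is not a sum of two nonzero elements. -/
def IsGen (S : AddSubmonoid ℕ) (a : ℕ) : Prop :=
  a ∈ S ∧ a ≠ 0 ∧ ¬ ∃ x ∈ S, ∃ y ∈ S, x ≠ 0 ∧ y ≠ 0 ∧ a = x + y

/-- The effective weight: pairs (minimal generator, larger gap). -/
noncomputable def ew (S : AddSubmonoid ℕ) : ℕ :=
  {p : ℕ × ℕ | IsGen S p.1 ∧ p.2 ∉ S ∧ p.1 < p.2}.ncard

/-- The genus: the number of gaps. -/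
noncomputable def genus (S : AddSubmonoid ℕ) : ℕ := (S : Set ℕ)ᶜ.ncard

end Pool.Agent.H.MP_7689c7_co
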