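import Pool.Agent.H.MP_7689c7_co.Core
import Pool.Agent.H.MP_7689c7_co.Defs

namespace Pool.Agent.H.MP_7689c7_co

open Finset

theorem bridge (S : AddSubmonoid ℕ) (hS : (S : Set ℕ)ᶜ.Finite) :
    ∃ (m : ℕ) (k : ℕ → ℕ) (I : ℕ → Prop), Kz m k I ∧ (∀ x, x ∈ S ↔ x = 0 ∨ k (x % m) ≤ x / m) ∧
      (ew S : ℤ) ≤ EE m k I ∧ genus S + 1 = nn m k := by
  classical
  obtain ⟨B, hB⟩ := hS.bddAbove
  have big : ∀ x, B < x → x ∈ S := fun x hx => by
    by_contra e
    exact absurd (hB e) (not_le.mpr hx)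
  have ex1 : ∃ x, 0 < x ∧ x ∈ S := ⟨B + 1, by omega, big _ (by omega)⟩
  obtain ⟨m, ⟨hm, hmS⟩, hmin⟩ : ∃ m, (0 < m ∧ m ∈ S) ∧ ∀ x, 0 < x → x ∈ S → m ≤ x :=
    ⟨Nat.find ex1, Nat.find_spec ex1, fun x h1 h2 => Nat.find_min' ex1 ⟨h1, h2⟩⟩
  have ex2 : ∀ j, ∃ t, 0 < t ∧ t * m + j ∈ S := fun j =>
    ⟨B + 1, by omega, big _ (by nlinarith)⟩
  obtain ⟨k, hk, hk2⟩ : ∃ k : ℕ → ℕ, (∀ j, 0 < k j ∧ k j * m + j ∈ S) ∧
      ∀ j t, 0 < t → t * m + j ∈ S → k j ≤ t :=
    ⟨fun j => Nat.find (ex2 j), fun j => Nat.find_spec (ex2 j),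
      fun j t h1 h2 => Nat.find_min' (ex2 j) ⟨h1, h2⟩⟩
  have mul : ∀ t, t * m ∈ S := fun t => by simpa using S.nsmul_mem hmS t
  have mem : ∀ x, x ∈ S ↔ x = 0 ∨ k (x % m) ≤ x / m := by
    intro x
    have e := Nat.div_add_mod' x m
    constructor
    · intro hx
      rcases Nat.eq_zero_or_pos x with h0 | h0
      · exact Or.inl h0
      · exact Or.inr (hk2 _ _ (Nat.div_pos (hmin x h0 hx) hm) (e.symm ▸ hx))
    · rintro (rfl | h)
      · exact S.zero_mem
      · obtain ⟨c, hc⟩ := Nat.exists_eq_add_of_le h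
        have := S.add_mem (hk (x % m)).2 (mul c)
        rwa [show k (x % m) * m + x % m + c * m = x by rw [hc] at e; linarith] at this
  have k0 : k 0 = 1 := le_antisymm (hk2 0 1 one_pos (by simpa using hmS)) (hk 0).1
  have key : ∀ j < m, ∀ i < m, (k i + k (sg m j i) + cy j i) * m + j =
      (k i * m + i) + (k (sg m j i) * m + sg m j i) := by
    intro j hj i hi
    have : cy j i * m + j = i + sg m j i := by unfold cy sg; split_ifs <;> omega
    linarith
  have sub : ∀ j < m, ∀ i < m, k j ≤ k i + k (sg m j i) + cy j i := fun j hj i hi =>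
    hk2 _ _ (by have := (hk i).1; omega) (key j hj i hi ▸ S.add_mem (hk _).2 (hk _).2)
  have ne0 : ∀ i, k i * m + i ≠ 0 := fun i => by have := Nat.mul_pos (hk i).1 hm; omega
  refine ⟨m, k, fun j => IsGen S (k j * m + j), ⟨hm, k0, fun j _ => (hk j).1, sub, ?_⟩, mem, ?_, ?_⟩
  · intro j hj hI i hi
    refine lt_of_le_of_ne (sub j hj i hi) fun e => hI.2.2 ⟨_, (hk i).2, _, (hk (sg m j i)).2,
      ne0 _, ne0 _, ?_⟩
    rw [← key j hj i hi, ← e]
  · let V : Finset (Σ _ : ℕ, Σ _ : ℕ, ℕ) := (range m).sigma fun j =>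
      (filter (fun i => IsGen S (k i * m + i)) (range m)).sigma fun i =>
        Ico (k i + if j ≤ i then 1 else 0) (k j)
    have h1 : {p : ℕ × ℕ | IsGen S p.1 ∧ p.2 ∉ S ∧ p.1 < p.2} ⊆
        ↑(V.image fun v => (k v.2.1 * m + v.2.1, v.2.2 * m + v.1)) := by
      rintro ⟨a, b⟩ ⟨h1, h2, h3⟩
      simp only at h1 h2 h3
      have ea := Nat.div_add_mod' a m
      have eb := Nat.div_add_mod' b m
      have h4 : k (a % m) = a / m := by
        refine le_antisymm (((mem a).mp h1.1).resolve_left h1.2.1) (not_lt.mp fun e => ?_)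
        obtain ⟨c, hc⟩ := Nat.exists_eq_add_of_lt e
        refine h1.2.2 ⟨_, (hk (a % m)).2, _, mul (c + 1), ne0 _, by positivity, ?_⟩
        rw [hc] at ea
        linarith
      have h5 : b / m < k (b % m) := not_le.mp fun e => h2 ((mem b).mpr (Or.inr e))
      simp only [coe_image, Set.mem_image, mem_coe, V, mem_sigma, mem_range, mem_filter, mem_Ico]
      refine ⟨⟨b % m, a % m, b / m⟩, ⟨Nat.mod_lt _ hm, ⟨Nat.mod_lt _ hm, ?_⟩, ?_, h5⟩, ?_⟩
      · simp only [h4, ea, h1]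
      · simp only [h4]
        have h6 : a / m ≤ b / m := Nat.div_le_div_right h3.le
        split_ifs with e
        · refine lt_of_le_of_ne h6 fun e2 => ?_
          rw [e2] at ea
          omega
        · exact h6
      · simp only [h4, ea, eb]
    have h2 := (Set.ncard_le_ncard h1 (Finset.finite_toSet _)).trans
      ((Set.ncard_coe_finset _).le.trans card_image_le)
    refine (Int.ofNat_le.mpr h2).trans (le_of_eq ?_)
    simp only [V, card_sigma, Nat.card_Ico, sum_filter, EE, FF, cc, io_eq]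
    push_cast
    refine sum_congr rfl fun j _ => sum_congr rfl fun i _ => ?_
    split_ifs <;> simp [Nat.sub_sub]
  · let V : Finset (Σ _ : ℕ, ℕ) := (range m).sigma fun j => range (k j)
    have h1 : insert 0 (S : Set ℕ)ᶜ = ↑(V.image fun v => v.2 * m + v.1) := by
      ext x
      simp only [coe_image, Set.mem_image, V, mem_sigma, mem_range, Set.mem_insert_iff,
        Set.mem_compl_iff, SetLike.mem_coe]
      constructor
      · rintro (rfl | h)
        · exact ⟨⟨0, 0⟩, ⟨hm, (hk 0).1⟩, by simp⟩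
        · exact ⟨⟨x % m, x / m⟩, ⟨Nat.mod_lt _ hm,
            not_le.mp fun e => h ((mem x).mpr (Or.inr e))⟩, Nat.div_add_mod' x m⟩
      · rintro ⟨⟨j, t⟩, ⟨h1, h2⟩, rfl⟩
        simp only at h1 h2 ⊢
        by_cases e : t * m + j ∈ S
        · left
          rcases Nat.eq_zero_or_pos t with rfl | ht
          · by_contra e2
            have := hmin _ (Nat.pos_of_ne_zero e2) e
            omega
          · have := hk2 _ _ ht e
            omega
        · exact Or.inr e
    have h2 := congrArg Set.ncard h1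
    rw [Set.ncard_insert_of_notMem (s := (S : Set ℕ)ᶜ) (fun e => e S.zero_mem) hS, Set.ncard_coe_finset,
      card_image_of_injOn, card_sigma] at h2
    · simpa [genus, nn] using h2
    · rintro ⟨j, t⟩ h1 ⟨j', t'⟩ h2 e
      simp only [V, coe_sigma, Set.mem_sigma_iff, mem_coe, mem_range] at h1 h2 e
      have e1 : j = j' := by
        have := congrArg (· % m) e
        simpa [Nat.mod_eq_of_lt h1.1, Nat.mod_eq_of_lt h2.1] using this
      subst e1
      rw [Nat.eq_of_mul_eq_mul_right hm (Nat.add_right_cancel e)]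

theorem ew_le (S : AddSubmonoid ℕ) (hS : (S : Set ℕ)ᶜ.Finite) : ew S ≤ (genus S + 1) ^ 2 / 8 := by
  obtain ⟨m, k, I, h1, -, h2, h3⟩ := bridge S hS
  have h4 := bound h1
  rw [Nat.le_div_iff_mul_le (by norm_num), h3]
  zify
  linarith

end Pool.Agent.H.MP_7689c7_co
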