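import Pool.Agent.H.MP_7689c7_co.Core

namespace Pool.Agent.H.MP_7689c7_co

open Finset

variable {m : ℕ} {k : ℕ → ℕ} {I : ℕ → Prop}

lemma arA {v d s r L E n : ℤ} (hv : 1 ≤ v) (hd : 0 ≤ d) (hs : 0 ≤ s) (hr : 1 ≤ r)
    (h1 : 4 * s - 2 * (v * s) + d * (d - 1) + 2 * (r * (r - 1)) - 2 * (d * r) ≤ 2 * L)
    (h2 : n = v + 3 * d + 3 * s + 4 * r) (h3 : n ^ 2 - 8 * E = (d + s + v) ^ 2 + 4 * L)
    (h4 : n ^ 2 ≤ 8 * E + 4) (h5 : 11 ≤ n) : False := by
  have h6 : (v - s) ^ 2 + 8 * s + 2 * (d * (s + v - 1)) + (3 * d ^ 2 - 4 * (d * r) + 4 * r ^ 2 - 4 * r)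
      ≤ 4 := by nlinarith
  have h7 : 0 ≤ d * (s + v - 1) := mul_nonneg hd (by omega)
  have hr2 : r ≤ 2 := by nlinarith [sq_nonneg (3 * d - 2 * r), sq_nonneg (v - s)]
  have hd2 : d ≤ 2 := by nlinarith [sq_nonneg (v - s)]
  have h8 : -1 ≤ 3 * d ^ 2 - 4 * (d * r) + 4 * r ^ 2 - 4 * r := by
    interval_cases r <;> interval_cases d <;> omega
  obtain rfl : s = 0 := by nlinarith [sq_nonneg (v - s)]
  have hv2 : v ≤ 2 := by nlinarith
  subst h2
  interval_cases r <;> interval_cases d <;> interval_cases v <;> omega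

lemma arB {d s e r L : ℤ} (hd : 0 ≤ d) (hs : 0 ≤ s) (he : 0 ≤ e) (hr : 0 ≤ r)
    (h1 : 2 + 2 * s - 2 * d + (2 * (d * (d - 1)) + 2 * (d * e) + e * (e - 1) + 2 * (r * (r - 1)))
      ≤ 2 * L) (h2 : L ≤ 1) : d + s + e + r ≤ 2 + L := by
  have h3 := mul_nonneg hd he
  have h4 := cons e
  have h5 := cons r
  have hd2 : d ≤ 2 := by nlinarith
  have he2 : e ≤ 2 := by nlinarith [sq_nonneg (d - 1)]
  have hr2 : r ≤ 1 := by nlinarith [sq_nonneg (d - 1)]
  interval_cases r <;> interval_cases d <;> interval_cases e <;> omega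

lemma arC {d e r : ℤ} (hd : 0 ≤ d) (he : 0 ≤ e) (hr : 0 ≤ r)
    (h1 : 2 * (d * (d - 1)) + 2 * (d * e) + e * (e - 1) + 2 * (r * (r - 1)) ≤ 0) :
    d + e + r ≤ 2 := by
  have h3 := mul_nonneg hd he
  have h4 := cons e
  have h5 := cons r
  have h6 := cons d
  have hd2 : d ≤ 1 := by nlinarith
  have he2 : e ≤ 1 := by nlinarith
  have hr2 : r ≤ 1 := by nlinarith
  interval_cases r <;> interval_cases d <;> interval_cases e <;> omega

theorem depth (h : Kz m k I) (hn : 11 ≤ nn m k) (hE : (nn m k : ℤ) ^ 2 ≤ 8 * EE m k I + 4) :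
    ∀ j < m, k j ≤ 2 := by
  intro j hj
  by_contra h3
  replace h3 : 3 ≤ k j := by omega
  have t1 : (1 : ℤ) = 1 ∨ (1 : ℤ) = 2 := Or.inl rfl
  have t2 : (2 : ℤ) = 1 ∨ (2 : ℤ) = 2 := Or.inr rfl
  have h1 := sum_ex (m := m) (k := k) (I := I) 1
  have h2 := LQ (m := m) (k := k) (I := I) t1
  have g1 := sum_ex (m := m) (k := k) (I := I) 2
  have g2 := LQ (m := m) (k := k) (I := I) t2
  have h5 := Xsum (m := m) (k := k) (I := I)
  have h6 := tot h
  have h7 : 0 ≤ d2 m k I := N_nonneg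
  have h8 : 0 ≤ r2 m k I := N_nonneg
  have h9 : 0 ≤ d3 m k I := N_nonneg
  have h10 : 0 ≤ r3 m k I := N_nonneg
  have hmu : mu m k = N m (fun i => 2 ≤ k i) - N m (fun i => k i = 1) := rfl
  have e : (nn m k : ℤ) ^ 2 = (m - (nn m k - m)) ^ 2 + 4 * (m * (nn m k - m)) := by ring
  rcases lt_or_ge (mu m k) 0 with h0 | h0
  · obtain ⟨a1, a2⟩ := neg_case h h0
    have h4 := nn_eq h a1
    have a3 : 1 ≤ r3 m k I := N_one hj ⟨h3, fun e => by
      have : 1 ≤ d3 m k I := N_one hj ⟨h3, e⟩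
      omega⟩
    have a4 := ex_r2 h hj h3 h0
    rw [a2] at h2
    refine arA (v := -mu m k) (L := m * ((nn m k : ℤ) - m) - 2 * EE m k I) (by omega) h7 h8 a3
      (by linarith) (by omega) ?_ hE (by omega)
    rw [e, show (m : ℤ) - (nn m k - m) = d2 m k I + r2 m k I + -mu m k by omega]
    ring
  have b1 := lam_nonneg h h0
  have b2 := ex_top h hj (Or.inl h3) t1 h0
  have b3 := ex_top h hj (Or.inl h3) t2 h0
  have b4 : (m : ℤ) - (nn m k - m) ≤ 2 := by nlinarith
  have b5 : -2 ≤ (m : ℤ) - (nn m k - m) := by nlinarith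
  have b6 : m * ((nn m k : ℤ) - m) - 2 * EE m k I ≤ 1 := by
    nlinarith [sq_nonneg ((m : ℤ) - (nn m k - m))]
  have b7 : m * ((nn m k : ℤ) - m) - 2 * EE m k I = 1 → (m : ℤ) - (nn m k - m) = 0 := fun e1 =>
    pow_eq_zero_iff (n := 2) (by norm_num) |>.mp
      (le_antisymm (by linarith) (sq_nonneg _))
  have par : ∀ c : ℤ, (m : ℤ) = 2 * c → m * ((nn m k : ℤ) - m) - 2 * EE m k I = 0 := by
    intro c hc
    have : m * ((nn m k : ℤ) - m) = 2 * (c * (nn m k - m)) := by rw [← mul_assoc, ← hc]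
    omega
  rcases (show mu m k = 0 ∨ mu m k = 1 ∨ 2 ≤ mu m k by omega) with c | c | c
  · have c1 := par (N m (fun i => k i = 1)) (by omega)
    have c2 := ex_nonneg h t2
    rw [c] at g1
    have c3 := arC h7 h9 h10 (by linarith)
    have c4 : ∑ j ∈ range m, ex m k I 2 j ≤ 0 := by
      have := mul_nonneg h7 h9
      have := cons (d2 m k I)
      have := cons (d3 m k I)
      have := cons (r3 m k I)
      linarith
    obtain ⟨p, hp, p1, p2⟩ := N_ex (show r2 m k I ≠ 0 by omega)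
    have c5 : Ag m k p ≤ 0 := by
      have := ((ex_ge h hp t2).2.1 p1 p2).trans (ex_le h hp t2)
      omega
    have c6 : ∀ i < m, TT k I i → i = m - 1 := by
      intro i hi hT
      have q1 := ((ex_ge h hi t2).2.2.2.1 hT rfl).trans (ex_le h hi t2)
      have q2 : ¬ i < p := fun e => by
        have : 1 ≤ Rg m k I i := N_one hp ⟨⟨p1, p2⟩, e⟩
        omega
      have q3 : Ag m k i ≤ Ag m k p := N_mono fun x _ hx => ⟨hx.1, by omega⟩
      have q4 := LN h hi hT
      rw [← Xg] at q4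
      by_contra q5
      have q6 := h.pos (m - 1) (by omega)
      rcases q6.eq_or_lt with q7 | q7
      · have : 1 ≤ Ag m k i := N_one (i := m - 1) (by omega) ⟨q7.symm, by omega⟩
        omega
      · have : 1 ≤ N m (fun x => 2 ≤ k x ∧ i < x) := N_one (i := m - 1) (by omega) ⟨q7, by omega⟩
        omega
    have c7 := c6 j hj (Or.inl h3)
    have c8 : N m (fun i => 3 ≤ k i) ≤ 1 :=
      (N_mono fun i hi e => (c6 i hi (Or.inl e)).trans c7.symm).trans (N_eq hj).le
    have c9 : k j ≤ 3 := by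
      by_contra q
      have : N m (fun i => k i = 1) ≤ N m (fun i => 3 ≤ k i) := N_sg hj fun i hi e => by
        have := h.sub j hj i hi
        rw [show cy j i = 0 from if_neg (by omega)] at this
        omega
      omega
    have c10 := nn_eq h (fun i hi => by
      by_contra q
      have := (c6 i hi (Or.inl (by omega))).trans c7.symm
      subst this
      omega)
    have c11 : N m (fun i => 3 ≤ k i) = d3 m k I + r3 m k I := N_split _ I
    omega
  · rw [c] at g1 b3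
    have := arB (L := m * ((nn m k : ℤ) - m) - 2 * EE m k I) h7 h8 h9 h10 (by linarith) b6
    omega
  · have h4 := cons (d2 m k I - r3 m k I)
    have h11 := cons (r3 m k I - 1)
    have h12 := cons (d3 m k I)
    have h13 : 0 ≤ mu m k * r2 m k I := mul_nonneg h0 h8
    have c1 : mu m k - 1 ≤ m * ((nn m k : ℤ) - m) - 2 * EE m k I := by nlinarith
    have := par (N m (fun i => k i = 1) + 1) (by omega)
    omega

theorem shape (h : Kz m k I) (h2 : ∀ j < m, k j ≤ 2) (hE : (nn m k : ℤ) ^ 2 ≤ 8 * EE m k I + 4) :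
    ∃ a b : ℕ, 1 ≤ a ∧ a ≤ 2 * b + 2 ∧ 2 * b ≤ a + 2 ∧ m = a + b ∧
      ∀ j < m, k j = if j < a then 1 else 2 := by
  have h1 := nn_eq h (fun j hj => (h2 j hj).trans (by omega))
  rw [show d3 m k I = 0 from N_zero fun i hi e => by have := h2 i hi; omega,
    show r3 m k I = 0 from N_zero fun i hi e => by have := h2 i hi; omega] at h1
  have h3 := tot h
  have h4 : ∑ j ∈ range m, (mu m k * io (2 ≤ k j) + 2 * (io (2 ≤ k j) * Ag m k j)) ≤
      ∑ j ∈ range m, loss m k I j := by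
    refine sum_le_sum fun j hj => ?_
    have := h2 j (mem_range.mp hj)
    have := h.pos j (mem_range.mp hj)
    by_cases e : k j = 1
    · rw [io_neg (by omega), L1 h e]
      simp
    · have := L2 h (j := j) (by omega)
      rw [io_pos (by omega)]
      omega
  rw [sum_loss, sum_add_distrib, ← mul_sum, ← mul_sum] at h4
  have h5 : ∀ j ∈ range m, 0 ≤ io (2 ≤ k j) * Ag m k j := fun _ _ =>
    mul_nonneg (io_nonneg _) N_nonneg
  have h6 := sum_nonneg h5
  have h7 : (N m (fun i => k i = 1) - 2 * N m (fun i => 2 ≤ k i)) ^ 2 +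
      8 * ∑ j ∈ range m, io (2 ≤ k j) * Ag m k j ≤ 4 := by
    change mu m k * N m (fun i => 2 ≤ k i) + _ ≤ _ at h4
    unfold mu at h4
    rw [h1, ← h3] at h4 hE
    nlinarith
  have h8 : ∑ j ∈ range m, io (2 ≤ k j) * Ag m k j = 0 := by
    have := sq_nonneg (N m (fun i => k i = 1) - 2 * N m (fun i => 2 ≤ k i))
    omega
  have h9 : ∀ j < m, ∀ i < m, 2 ≤ k j → k i = 1 → i < j := by
    intro j hj i hi e1 e2
    have := (sum_eq_zero_iff_of_nonneg h5).mp h8 j (mem_range.mpr hj)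
    rw [io_pos e1] at this
    by_contra e3
    have : 1 ≤ Ag m k j := N_one hi ⟨e2, lt_of_le_of_ne (by omega) (by rintro rfl; omega)⟩
    omega
  obtain ⟨a, ha⟩ := Int.eq_ofNat_of_zero_le (N_nonneg (m := m) (P := fun i => k i = 1))
  obtain ⟨b, hb⟩ := Int.eq_ofNat_of_zero_le (N_nonneg (m := m) (P := fun i => 2 ≤ k i))
  have h10 : 1 ≤ N m (fun i => k i = 1) := N_one h.mpos h.k0
  rw [h8, ha, hb] at h7
  refine ⟨a, b, by omega, by nlinarith, by nlinarith, by omega, fun j hj => ?_⟩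
  have := h2 j hj
  have := h.pos j hj
  by_cases e : k j = 1
  · have q1 : N m (fun i => i < j + 1) ≤ N m (fun i => k i = 1) := N_mono fun i hi e1 => by
      by_contra e2
      have := h.pos i hi
      have := h9 i hi j hj (by omega) e
      omega
    rw [N_lt (by omega)] at q1
    rw [if_pos (by omega), e]
  · have q1 : N m (fun i => k i = 1) ≤ N m (fun i => i < j) := N_mono fun i hi e1 =>
      h9 j hj i hi (by omega) e1
    rw [N_lt hj.le] at q1
    rw [if_neg (by omega)]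
    omega

end Pool.Agent.H.MP_7689c7_co
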