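import Mathlib

namespace Pool.Agent.H.MP_7689c7_co

open Finset

def sg (m j i : ℕ) : ℕ := if i ≤ j then j - i else m + j - i

def cy (j i : ℕ) : ℕ := if j < i then 1 else 0

def cc (k : ℕ → ℕ) (i j : ℕ) : ℕ := k j - k i - if j ≤ i then 1 else 0

structure Kz (m : ℕ) (k : ℕ → ℕ) (I : ℕ → Prop) : Prop where
  mpos : 0 < m
  k0 : k 0 = 1
  pos : ∀ j < m, 1 ≤ k j
  sub : ∀ j < m, ∀ i < m, k j ≤ k i + k (sg m j i) + cy j i
  str : ∀ j < m, I j → ∀ i < m, k j < k i + k (sg m j i) + cy j i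

open Classical in
noncomputable def io (P : Prop) : ℤ := if P then 1 else 0

lemma io_pos {P : Prop} (h : P) : io P = 1 := if_pos h
lemma io_neg {P : Prop} (h : ¬ P) : io P = 0 := if_neg h
lemma io_eq (P : Prop) [Decidable P] : io P = if P then 1 else 0 := by unfold io; congr
lemma io_nonneg (P : Prop) : 0 ≤ io P := by unfold io; split_ifs <;> omega
lemma io_le {P Q : Prop} (h : P → Q) : io P ≤ io Q := by
  unfold io; split_ifs <;> first | omega | tauto

noncomputable def N (m : ℕ) (P : ℕ → Prop) : ℤ := ∑ i ∈ range m, io (P i)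

noncomputable def FF (m : ℕ) (k : ℕ → ℕ) (I : ℕ → Prop) (j : ℕ) : ℤ :=
  ∑ i ∈ range m, io (I i) * cc k i j

variable {m : ℕ} {k : ℕ → ℕ} {I : ℕ → Prop} {j : ℕ} {P Q : ℕ → Prop}

lemma sg_lt {i : ℕ} (hj : j < m) (hi : i < m) : sg m j i < m := by unfold sg; split_ifs <;> omega

lemma sum_sg (hj : j < m) (f : ℕ → ℤ) : ∑ i ∈ range m, f (sg m j i) = ∑ i ∈ range m, f i := by
  refine sum_nbij' (sg m j) (sg m j) ?_ ?_ ?_ ?_ (fun _ _ => rfl) <;> intro i hi <;>
    simp only [mem_range] at * <;> first | exact sg_lt hj hi | (unfold sg; split_ifs <;> omega)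

lemma N_nonneg : 0 ≤ N m P := sum_nonneg fun _ _ => io_nonneg _

lemma N_mono (h : ∀ i < m, P i → Q i) : N m P ≤ N m Q :=
  sum_le_sum fun i hi => io_le (h i (mem_range.mp hi))

lemma N_sg (hj : j < m) (h : ∀ i < m, P i → Q (sg m j i)) : N m P ≤ N m Q :=
  (N_mono h).trans (sum_sg hj fun i => io (Q i)).le

lemma N_split (P Q : ℕ → Prop) : N m P = N m (fun i => P i ∧ Q i) + N m (fun i => P i ∧ ¬ Q i) := by
  unfold N
  rw [← sum_add_distrib]
  refine sum_congr rfl fun i _ => ?_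
  by_cases h1 : P i <;> by_cases h2 : Q i <;> simp [io, h1, h2]

lemma N_congr (h : ∀ i < m, P i ↔ Q i) : N m P = N m Q :=
  le_antisymm (N_mono fun i hi => (h i hi).mp) (N_mono fun i hi => (h i hi).mpr)

lemma N_zero (h : ∀ i < m, ¬ P i) : N m P = 0 := sum_eq_zero fun i hi => io_neg (h i (mem_range.mp hi))

lemma N_one {i : ℕ} (hi : i < m) (h : P i) : 1 ≤ N m P :=
  (io_pos h).ge.trans (single_le_sum (f := fun i => io (P i)) (fun _ _ => io_nonneg _)
    (mem_range.mpr hi))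

lemma N_ex (h : N m P ≠ 0) : ∃ i < m, P i := by
  by_contra e
  push Not at e
  exact h (N_zero e)

lemma N_lt {a : ℕ} (h : a ≤ m) : N m (fun i => i < a) = a := by
  simp only [N, io_eq]
  rw [sum_boole]
  congr 1
  rw [show filter (fun i => i < a) (range m) = range a by ext; simp; omega, card_range]

lemma N_eq (hj : j < m) : N m (fun i => i = j) = 1 := by
  simp only [N, io_eq]
  rw [sum_boole]
  rw [show filter (fun i => i = j) (range m) = {j} by
    ext; simp only [mem_filter, mem_range, mem_singleton]; omega]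
  simp

noncomputable def pp (k : ℕ → ℕ) (I : ℕ → Prop) (i j : ℕ) : ℤ :=
  io (I i ∧ 2 ≤ k i ∧ k i < k j) * (2 - io (I j))

noncomputable def loss (m : ℕ) (k : ℕ → ℕ) (I : ℕ → Prop) (j : ℕ) : ℤ :=
  m * (k j - 1) - 2 * FF m k I j

noncomputable def mu (m : ℕ) (k : ℕ → ℕ) : ℤ := N m (fun i => 2 ≤ k i) - N m (fun i => k i = 1)

/-- The classes that are not of level one and not reducible of level two. -/
def TT (k : ℕ → ℕ) (I : ℕ → Prop) (i : ℕ) : Prop := 3 ≤ k i ∨ (k i = 2 ∧ I i)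

noncomputable def Ag (m : ℕ) (k : ℕ → ℕ) (j : ℕ) : ℤ := N m (fun i => k i = 1 ∧ j < i)
noncomputable def Tg (m : ℕ) (k : ℕ → ℕ) (I : ℕ → Prop) (j : ℕ) : ℤ :=
  N m (fun i => TT k I i ∧ j < i)
noncomputable def Rg (m : ℕ) (k : ℕ → ℕ) (I : ℕ → Prop) (j : ℕ) : ℤ :=
  N m (fun i => (k i = 2 ∧ ¬ I i) ∧ j < i)

lemma tot (h : Kz m k I) : N m (fun i => k i = 1) + N m (fun i => 2 ≤ k i) = m := by
  rw [← N_lt le_rfl, N_split (fun i => i < m) (fun i => k i = 1)]
  congr 1 <;> refine N_congr fun i hi => ?_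
  · tauto
  · have := h.pos i hi
    omega

lemma Xg : N m (fun i => 2 ≤ k i ∧ j < i) = Tg m k I j + Rg m k I j := by
  rw [N_split _ (TT k I)]
  unfold Tg Rg TT
  congr 1 <;> refine N_congr fun i _ => ?_ <;> by_cases I i <;> simp [*] <;> omega

lemma L1 (h : Kz m k I) (h1 : k j = 1) : loss m k I j = 0 := by
  unfold loss FF
  rw [sum_eq_zero, h1]
  · simp
  · intro i hi
    have := h.pos i (mem_range.mp hi)
    rw [show cc k i j = 0 by unfold cc; omega]
    simp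

lemma L2 (h : Kz m k I) (h2 : k j = 2) : mu m k + 2 * Ag m k j ≤ loss m k I j := by
  have h1 : FF m k I j ≤ N m (fun i => k i = 1 ∧ ¬ j < i) := by
    refine sum_le_sum fun i hi => ?_
    have := h.pos i (mem_range.mp hi)
    unfold io cc
    split_ifs <;> omega
  have h3 := N_split (m := m) (fun i => k i = 1) (fun i => j < i)
  have h4 := tot h
  unfold mu Ag loss
  rw [h2]
  push_cast
  omega

lemma LN (h : Kz m k I) (hj : j < m) (hT : TT k I j) :
    Tg m k I j + Rg m k I j ≤ Ag m k j + mu m k := by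
  have h1 : N m (fun i => k i = 1 ∧ ¬ j < i) ≤ N m (fun i => 2 ≤ k i ∧ ¬ j < i) := by
    refine N_sg hj fun i hi h2 => ?_
    have h3 := h.sub j hj i hi
    have h4 := fun e => h.str j hj e i hi
    have h5 : cy j i = 0 := if_neg h2.2
    refine ⟨?_, by unfold sg; split_ifs <;> omega⟩
    rcases hT with e | e
    · omega
    · have := h4 e.2
      omega
  have h3 := N_split (m := m) (fun i => k i = 1) (fun i => j < i)
  have h4 := N_split (m := m) (fun i => 2 ≤ k i) (fun i => j < i)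
  rw [Xg (I := I)] at h4
  unfold mu Ag
  omega

lemma pt3 {t x y e c c' : ℕ} {p p' J K : Prop} (ht : 3 ≤ t) (hx : 1 ≤ x) (hy : 1 ≤ y)
    (he : (e : ℤ) = io K) (hc : c ≤ t - x - e) (hc' : c' ≤ t - y - e) (h1 : t ≤ x + y + e)
    (h2 : J → t < x + y + e) :
    2 * (io p * c + io p' * c' + io K + io (2 ≤ x) + io (2 ≤ y)) ≤
      2 * t + io (p ∧ 2 ≤ x ∧ x < t) * (2 - io J) + io (p' ∧ 2 ≤ y ∧ y < t) * (2 - io J) := by
  unfold io at *
  by_cases p <;> by_cases p' <;> by_cases J <;> by_cases K <;> simp only [*, if_true, if_false,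
    true_and, false_and, forall_const, IsEmpty.forall_iff] at * <;> split_ifs <;> omega

lemma L3 (h : Kz m k I) (hj : j < m) (h3 : 3 ≤ k j) :
    mu m k + Tg m k I j + Rg m k I j + Ag m k j - ∑ i ∈ range m, pp k I i j ≤ loss m k I j := by
  have h1 : ∑ i ∈ range m, 2 * (io (I i) * cc k i j + io (I (sg m j i)) * cc k (sg m j i) j +
      io (j < i) + io (2 ≤ k i) + io (2 ≤ k (sg m j i))) ≤
      ∑ i ∈ range m, (2 * (k j : ℤ) + pp k I i j + pp k I (sg m j i) j) := by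
    refine sum_le_sum fun i hi => ?_
    have hi := mem_range.mp hi
    refine pt3 (e := cy j i) h3 (h.pos i hi) (h.pos _ (sg_lt hj hi)) ?_ ?_ ?_ (h.sub j hj i hi)
      (fun e => h.str j hj e i hi)
    · unfold cy io; split_ifs <;> rfl
    · unfold cc cy; split_ifs <;> omega
    · unfold cc cy sg; split_ifs <;> omega
  simp only [← mul_sum, sum_add_distrib, sum_const, card_range, nsmul_eq_mul] at h1
  rw [sum_sg hj (fun i => io (I i) * cc k i j), sum_sg hj (fun i => io (2 ≤ k i)),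
    sum_sg hj (fun i => pp k I i j)] at h1
  have h2 : N m (fun i => j < i) = Ag m k j + N m (fun i => 2 ≤ k i ∧ j < i) := by
    rw [N_split _ (fun i => k i = 1)]
    unfold Ag
    congr 1 <;> refine N_congr fun i hi => ?_
    · tauto
    · have := h.pos i hi
      omega
  rw [Xg (I := I)] at h2
  have h4 := tot h
  unfold mu loss FF
  unfold N at *
  nlinarith

lemma LP (h : Kz m k I) (hj : j < m) (h3 : 4 ≤ k j ∨ (3 ≤ k j ∧ I j)) : 0 ≤ mu m k := by
  have h1 : N m (fun i => k i = 1) ≤ N m (fun i => 2 ≤ k i) := by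
    refine N_sg hj fun i hi h2 => ?_
    have h5 := h.sub j hj i hi
    have h4 := fun e => h.str j hj e i hi
    have h6 : cy j i ≤ 1 := by unfold cy; split_ifs <;> omega
    rcases h3 with e | e
    · omega
    · have := h4 e.2
      omega
  unfold mu
  omega

noncomputable def UU (m : ℕ) (k : ℕ → ℕ) (I : ℕ → Prop) (θ : ℤ) (j : ℕ) : ℤ :=
  (2 * io (3 ≤ k j) + θ * io (k j = 2 ∧ I j)) * Tg m k I j -
    io (3 ≤ k j) * ∑ i ∈ range m, pp k I i j

noncomputable def d2 (m : ℕ) (k : ℕ → ℕ) (I : ℕ → Prop) : ℤ := N m (fun i => k i = 2 ∧ I i)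
noncomputable def r2 (m : ℕ) (k : ℕ → ℕ) (I : ℕ → Prop) : ℤ := N m (fun i => k i = 2 ∧ ¬ I i)
noncomputable def d3 (m : ℕ) (k : ℕ → ℕ) (I : ℕ → Prop) : ℤ := N m (fun i => 3 ≤ k i ∧ I i)
noncomputable def r3 (m : ℕ) (k : ℕ → ℕ) (I : ℕ → Prop) : ℤ := N m (fun i => 3 ≤ k i ∧ ¬ I i)

lemma dsum (P Q : ℕ → Prop) :
    ∑ j ∈ range m, ∑ i ∈ range m, io (P j) * io (Q i) = N m P * N m Q := (sum_mul_sum ..).symm

lemma diag (P : ℕ → Prop) : ∑ j ∈ range m, ∑ i ∈ range m, io (P j) * io (i = j) = N m P := by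
  refine sum_congr rfl fun j hj => ?_
  rw [← mul_sum]
  exact (congrArg _ (N_eq (mem_range.mp hj))).trans (mul_one _)

lemma LQ {θ : ℤ} (hθ : θ = 1 ∨ θ = 2) :
    θ * (d2 m k I * (d2 m k I - 1)) + 2 * (θ - 1) * (d2 m k I * d3 m k I) +
      d3 m k I * (d3 m k I - 1) + 2 * (r3 m k I * (r3 m k I - 1)) +
      2 * (θ - 2) * (d2 m k I * r3 m k I) ≤ 2 * ∑ j ∈ range m, UU m k I θ j := by
  let W : ℕ → ℕ → ℤ := fun j i =>
    (2 * io (3 ≤ k j) + θ * io (k j = 2 ∧ I j)) * io (TT k I i ∧ j < i) - io (3 ≤ k j) * pp k I i j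
  have h1 : ∑ j ∈ range m, UU m k I θ j = ∑ j ∈ range m, ∑ i ∈ range m, W j i := by
    refine sum_congr rfl fun j _ => ?_
    simp only [W, UU, Tg, N, sum_sub_distrib, mul_sum]
  have h2 : ∑ j ∈ range m, ∑ i ∈ range m, W j i = ∑ j ∈ range m, ∑ i ∈ range m, W i j := sum_comm
  have h3 : ∑ j ∈ range m, ∑ i ∈ range m,
      (θ * (io (k j = 2 ∧ I j) * io (k i = 2 ∧ I i)) - θ * (io (k j = 2 ∧ I j) * io (i = j)) +
      (θ - 1) * (io (k j = 2 ∧ I j) * io (3 ≤ k i ∧ I i)) +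
      (θ - 1) * (io (3 ≤ k j ∧ I j) * io (k i = 2 ∧ I i)) +
      io (3 ≤ k j ∧ I j) * io (3 ≤ k i ∧ I i) - io (3 ≤ k j ∧ I j) * io (i = j) +
      2 * (io (3 ≤ k j ∧ ¬ I j) * io (3 ≤ k i ∧ ¬ I i)) - 2 * (io (3 ≤ k j ∧ ¬ I j) * io (i = j)) +
      (θ - 2) * (io (k j = 2 ∧ I j) * io (3 ≤ k i ∧ ¬ I i)) +
      (θ - 2) * (io (3 ≤ k j ∧ ¬ I j) * io (k i = 2 ∧ I i))) ≤
      ∑ j ∈ range m, ∑ i ∈ range m, (W j i + W i j) := by
    refine sum_le_sum fun j _ => sum_le_sum fun i _ => ?_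
    simp only [W, pp, TT]
    rcases lt_trichotomy i j with e | rfl | e
    · have e1 : ¬ j < i := by omega
      have e2 : ¬ i = j := by omega
      unfold io
      rcases hθ with rfl | rfl <;> by_cases I i <;> by_cases I j <;>
        simp only [*, and_true, and_false, true_and, false_and, if_true, if_false, not_true,
          not_false_iff, or_false] <;> split_ifs <;> omega
    · unfold io
      rcases hθ with rfl | rfl <;> by_cases I i <;>
        simp only [*, and_true, and_false, if_true, if_false, not_true,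
          not_false_iff, or_false, lt_irrefl] <;> split_ifs <;> omega
    · have e1 : ¬ i < j := by omega
      have e2 : ¬ i = j := by omega
      unfold io
      rcases hθ with rfl | rfl <;> by_cases I i <;> by_cases I j <;>
        simp only [*, and_true, and_false, true_and, false_and, if_true, if_false, not_true,
          not_false_iff, or_false] <;> split_ifs <;> omega
  simp only [sum_add_distrib, sum_sub_distrib, ← mul_sum _ _ θ, ← mul_sum _ _ (θ - 1),
    ← mul_sum _ _ (θ - 2), ← mul_sum _ _ (2 : ℤ), dsum, diag] at h3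
  rw [h1]
  unfold d2 d3 r3
  linarith

noncomputable def ex (m : ℕ) (k : ℕ → ℕ) (I : ℕ → Prop) (θ : ℤ) (j : ℕ) : ℤ :=
  loss m k I j - UU m k I θ j - mu m k * io (k j = 2 ∧ ¬ I j) + (θ - 1) * mu m k * io (k j = 2 ∧ I j)

lemma ex_ge (h : Kz m k I) (hj : j < m) {θ : ℤ} (hθ : θ = 1 ∨ θ = 2) :
    0 ≤ ex m k I θ j ∧ (k j = 2 → ¬ I j → 2 * Ag m k j ≤ ex m k I θ j) ∧
      (3 ≤ k j → 2 * Rg m k I j ≤ ex m k I θ j) ∧
      (TT k I j → θ = 2 → 2 * Rg m k I j ≤ ex m k I θ j) ∧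
      (TT k I j → Tg m k I j = 0 → 0 ≤ mu m k → mu m k ≤ ex m k I θ j) := by
  have hA : 0 ≤ Ag m k j := N_nonneg
  have hR : 0 ≤ Rg m k I j := N_nonneg
  have hT : 0 ≤ Tg m k I j := N_nonneg
  have h0 := h.pos j hj
  unfold ex UU
  rcases (show k j = 1 ∨ k j = 2 ∨ 3 ≤ k j by omega) with e | e | e
  · have := L1 h e
    rw [io_neg (P := 3 ≤ k j) (by omega), io_neg (P := k j = 2 ∧ I j) (by omega),
      io_neg (P := k j = 2 ∧ ¬ I j) (by omega)]
    unfold TT
    refine ⟨?_, ?_, ?_, ?_, ?_⟩ <;> omega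
  · have := L2 h e
    rw [io_neg (P := 3 ≤ k j) (by omega)]
    by_cases hI : I j
    · have := LN h hj (Or.inr ⟨e, hI⟩)
      rw [io_pos (P := k j = 2 ∧ I j) ⟨e, hI⟩, io_neg (P := k j = 2 ∧ ¬ I j) (by tauto)]
      rcases hθ with rfl | rfl <;> refine ⟨?_, fun _ e => absurd hI e, ?_, ?_, ?_⟩ <;> omega
    · have h1 : ¬ TT k I j := by
        rintro (e1 | e1)
        · omega
        · exact hI e1.2
      rw [io_neg (P := k j = 2 ∧ I j) (by tauto), io_pos (P := k j = 2 ∧ ¬ I j) ⟨e, hI⟩]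
      refine ⟨?_, fun _ _ => ?_, ?_, fun e => absurd e h1, fun e => absurd e h1⟩ <;> omega
  · have := L3 h hj e
    have := LN h hj (Or.inl e)
    rw [io_pos e, io_neg (P := k j = 2 ∧ I j) (by omega),
      io_neg (P := k j = 2 ∧ ¬ I j) (by omega)]
    refine ⟨?_, ?_, ?_, ?_, ?_⟩ <;> omega

/-- The total effective weight in Kunz coordinates. -/
noncomputable def EE (m : ℕ) (k : ℕ → ℕ) (I : ℕ → Prop) : ℤ := ∑ j ∈ range m, FF m k I j

/-- The genus plus one. -/
def nn (m : ℕ) (k : ℕ → ℕ) : ℕ := ∑ j ∈ range m, k j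

lemma sum_loss : ∑ j ∈ range m, loss m k I j = m * (nn m k - m) - 2 * EE m k I := by
  simp only [loss, EE, nn, sum_sub_distrib, ← mul_sum, sum_const, card_range, nsmul_eq_mul]
  push_cast
  ring

lemma sum_ex (θ : ℤ) : m * (nn m k - m) - 2 * EE m k I = ∑ j ∈ range m, ex m k I θ j +
    ∑ j ∈ range m, UU m k I θ j + mu m k * r2 m k I - (θ - 1) * mu m k * d2 m k I := by
  rw [← sum_loss]
  simp only [ex, sum_add_distrib, sum_sub_distrib, ← mul_sum, r2, d2, N]
  ring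

lemma ex_le (h : Kz m k I) (hj : j < m) {θ : ℤ} (hθ : θ = 1 ∨ θ = 2) :
    ex m k I θ j ≤ ∑ j ∈ range m, ex m k I θ j :=
  single_le_sum (fun _ hi => (ex_ge h (mem_range.mp hi) hθ).1) (mem_range.mpr hj)

lemma ex_nonneg (h : Kz m k I) {θ : ℤ} (hθ : θ = 1 ∨ θ = 2) : 0 ≤ ∑ j ∈ range m, ex m k I θ j :=
  sum_nonneg fun _ hi => (ex_ge h (mem_range.mp hi) hθ).1

lemma ex_top (h : Kz m k I) (hj : j < m) (hT : TT k I j) {θ : ℤ} (hθ : θ = 1 ∨ θ = 2)
    (h0 : 0 ≤ mu m k) : mu m k ≤ ∑ j ∈ range m, ex m k I θ j := by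
  classical
  obtain ⟨p, h1, h2⟩ := exists_max_image (filter (TT k I) (range m)) id
    ⟨j, mem_filter.mpr ⟨mem_range.mpr hj, hT⟩⟩
  rw [mem_filter, mem_range] at h1
  refine ((ex_ge h h1.1 hθ).2.2.2.2 h1.2 (N_zero fun i hi e => ?_) h0).trans (ex_le h h1.1 hθ)
  exact absurd (h2 i (mem_filter.mpr ⟨mem_range.mpr hi, e.1⟩)) (by simpa using e.2)

lemma ex_r2 (h : Kz m k I) (hj : j < m) (h3 : 3 ≤ k j) (h0 : mu m k < 0) :
    2 * r2 m k I ≤ ∑ j ∈ range m, ex m k I 1 j := by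
  have h1 : ∑ i ∈ range m, (2 * io ((k i = 2 ∧ ¬ I i) ∧ ¬ j < i) + 2 * Rg m k I j * io (i = j)) ≤
      ∑ j ∈ range m, ex m k I 1 j := by
    refine sum_le_sum fun i hi => ?_
    obtain ⟨e1, e2, e3, -⟩ := ex_ge h (mem_range.mp hi) (Or.inl rfl : (1 : ℤ) = 1 ∨ (1 : ℤ) = 2)
    by_cases e : i = j
    · subst e
      rw [io_neg (by omega), io_pos rfl]
      have := e3 h3
      omega
    · rw [io_neg e]
      by_cases e4 : (k i = 2 ∧ ¬ I i) ∧ ¬ j < i
      · rw [io_pos e4]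
        have a1 := e2 e4.1.1 e4.1.2
        have a2 := LN h hj (Or.inl h3)
        have a3 : Ag m k j ≤ Ag m k i := N_mono fun x _ hx => ⟨hx.1, by omega⟩
        have hR : 0 ≤ Rg m k I j := N_nonneg
        have hT : 0 ≤ Tg m k I j := N_nonneg
        omega
      · rw [io_neg e4]
        omega
  simp only [sum_add_distrib, ← mul_sum] at h1
  have h2 := N_eq hj
  have h4 := N_split (m := m) (fun i => k i = 2 ∧ ¬ I i) (fun i => j < i)
  unfold r2
  unfold Rg at h1
  simp only [N] at *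
  rw [h2] at h1
  omega

lemma Xsum : N m (fun i => 2 ≤ k i) = d2 m k I + r2 m k I + d3 m k I + r3 m k I := by
  unfold d2 r2 d3 r3 N
  simp only [← sum_add_distrib]
  refine sum_congr rfl fun i _ => ?_
  unfold io
  by_cases I i <;> simp only [*, and_true, and_false, not_true, not_false_iff, if_false] <;>
    split_ifs <;> omega

lemma nn_eq (h : Kz m k I) (h3 : ∀ j < m, k j ≤ 3) :
    (nn m k : ℤ) = m + N m (fun i => 2 ≤ k i) + (d3 m k I + r3 m k I) := by
  rw [← N_lt (le_refl m)]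
  unfold d3 r3 N nn
  push_cast
  simp only [← sum_add_distrib]
  refine sum_congr rfl fun i hi => ?_
  have := h3 i (mem_range.mp hi)
  have := h.pos i (mem_range.mp hi)
  rw [io_pos (mem_range.mp hi)]
  unfold io
  by_cases I i <;> simp only [*, and_true, and_false, not_true, not_false_iff, if_false] <;>
    split_ifs <;> omega

lemma neg_case (h : Kz m k I) (h0 : mu m k < 0) : (∀ j < m, k j ≤ 3) ∧ d3 m k I = 0 :=
  ⟨fun _ hj => not_lt.mp fun e => absurd (LP h hj (Or.inl e)) (not_le.mpr h0),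
    N_zero fun _ hj e => absurd (LP h hj (Or.inr e)) (not_le.mpr h0)⟩

lemma cons (x : ℤ) : 0 ≤ x * (x - 1) := by
  rcases le_or_gt x 0 with e | e <;> nlinarith

lemma lam_nonneg (h : Kz m k I) (h0 : 0 ≤ mu m k) : 0 ≤ m * ((nn m k : ℤ) - m) - 2 * EE m k I := by
  have h1 := sum_ex (m := m) (k := k) (I := I) 1
  have h2 := LQ (m := m) (k := k) (I := I) (Or.inl rfl : (1 : ℤ) = 1 ∨ (1 : ℤ) = 2)
  have h3 := ex_nonneg h (Or.inl rfl : (1 : ℤ) = 1 ∨ (1 : ℤ) = 2)
  have h4 := cons (d2 m k I - r3 m k I)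
  have h5 := cons (r3 m k I - 1)
  have h6 := cons (d3 m k I)
  have h7 : 0 ≤ mu m k * r2 m k I := mul_nonneg h0 N_nonneg
  rcases h0.eq_or_lt with e | e
  · have h8 := tot h
    have h9 : (m : ℤ) = 2 * N m (fun i => k i = 1) := by unfold mu at e; omega
    have : m * ((nn m k : ℤ) - m) = 2 * (N m (fun i => k i = 1) * (nn m k - m)) := by
      rw [← mul_assoc, ← h9]
    have : -1 ≤ m * ((nn m k : ℤ) - m) - 2 * EE m k I := by nlinarith
    omega
  · by_cases e2 : r3 m k I = 0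
    · rw [e2] at h2 h4
      nlinarith
    · obtain ⟨j, hj, e3⟩ := N_ex e2
      have := ex_top h hj (Or.inl e3.1) (Or.inl rfl : (1 : ℤ) = 1 ∨ (1 : ℤ) = 2) h0
      nlinarith

theorem bound (h : Kz m k I) : 8 * EE m k I ≤ (nn m k : ℤ) ^ 2 := by
  rcases lt_or_ge (mu m k) 0 with h0 | h0
  · obtain ⟨a1, a2⟩ := neg_case h h0
    have h1 := sum_ex (m := m) (k := k) (I := I) 1
    have h2 := LQ (m := m) (k := k) (I := I) (Or.inl rfl : (1 : ℤ) = 1 ∨ (1 : ℤ) = 2)
    have h3 := ex_nonneg h (Or.inl rfl : (1 : ℤ) = 1 ∨ (1 : ℤ) = 2)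
    have h4 := nn_eq h a1
    have h5 := Xsum (m := m) (k := k) (I := I)
    have h6 := tot h
    have h7 : 0 ≤ d2 m k I := N_nonneg
    have h8 : 0 ≤ r2 m k I := N_nonneg
    have h9 : (m : ℤ) - (nn m k - m) = d2 m k I + r2 m k I - mu m k := by unfold mu; omega
    have e : (nn m k : ℤ) ^ 2 = (m - (nn m k - m)) ^ 2 + 4 * (m * (nn m k - m)) := by ring
    rw [a2] at h2
    rw [e, h9]
    have h10 := cons (d2 m k I - r3 m k I)
    have h11 := cons (r3 m k I - 1)
    rcases h7.eq_or_lt with e1 | e1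
    · have := cons (r3 m k I)
      rw [← e1] at h2 ⊢
      nlinarith [sq_nonneg (r2 m k I + mu m k)]
    · have h12 : 4 ≤ (d2 m k I + r2 m k I - mu m k) ^ 2 + 4 * (mu m k * r2 m k I) := by
        rcases h8.eq_or_lt with e2 | e2
        · rw [← e2]
          nlinarith
        · nlinarith [sq_nonneg (r2 m k I + mu m k)]
      nlinarith
  · have := lam_nonneg h h0
    nlinarith [sq_nonneg ((m : ℤ) - (nn m k - m))]

end Pool.Agent.H.MP_7689c7_co
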